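import Pool.Agent.RS.StmtsT

/-!
# Squad RS (MP_b2b50d_lc), rows GMM and GGD: membership in the rings of germs
-/

set_option autoImplicit false

namespace Pool.Agent.RS.H29

open MvPolynomial Filter Pool.Agent.RS

/-- in characteristic zero the derivative vanishes iff the variable does not occur -/
theorem pderiv_eq_zero_iff {E : Type} [Field E] [CharZero E] (i : ℕ) (g : MvPolynomial ℕ E) :
    pderiv i g = 0 ↔ i ∉ g.vars := by
  constructor
  · intro h hi
    rw [mem_vars_iff_mem_support] at hi
    obtain ⟨m, hm, hmi⟩ := hi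
    have h1 : m - Finsupp.single i 1 + Finsupp.single i 1 = m := by
      refine tsub_add_cancel_of_le ?_
      rw [Finsupp.single_le_iff]
      exact Nat.one_le_iff_ne_zero.mpr (Finsupp.mem_support_iff.mp hmi)
    have h2 := coeff_pderiv (i := i) g (m - Finsupp.single i 1)
    rw [h, h1, coeff_zero] at h2
    have h3 : coeff m g ≠ 0 := mem_support_iff.mp hm
    rcases mul_eq_zero.mp h2.symm with h4 | h4
    · exact h3 h4
    · exact (Nat.cast_add_one_ne_zero _) h4
  · exact pderiv_eq_zero_of_notMem_vars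

/-- membership in `Pj` -/
theorem mem_Pj {E : Type} [Field E] [CharZero E] (j : ℕ → ℕ) (l : ℕ) (g : MvPolynomial ℕ E) :
    g ∈ Pj E j l ↔ ∀ i < l, pderiv (j i) g = 0 := by
  have h : g ∈ Pj E j l ↔ (↑g.vars : Set ℕ) ⊆ {i | i ∉ (Finset.range l).image j} := mem_supported
  rw [h]
  constructor
  · intro h1 i hi
    rw [pderiv_eq_zero_iff]
    intro h2
    exact h1 h2 (Finset.mem_image_of_mem _ (Finset.mem_range.mpr hi))
  · intro h1 v hv hv'
    obtain ⟨i, hi, rfl⟩ := Finset.mem_image.mp hv'
    exact (pderiv_eq_zero_iff _ _).mp (h1 i (Finset.mem_range.mp hi)) hv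

/-- row GMM -/
theorem gmm : GmmStmt := by
  intro E _ _ j F f hf l
  have h1 : ∀ i, dBG E (fun n => j n i) f = 0 ↔
      ∀ᶠ n in (uf : Filter ℕ), pderiv (j n i) (F n) = 0 := by
    intro i
    have h2 : ((dBG E (fun n => j n i) f : BG E) : AS E) =
        gm E (fun n => pderiv (j n i) (F n)) := by
      show dAS E (fun n => j n i) (f : AS E) = _
      rw [hf, dAS_gm]
    have h3 : dBG E (fun n => j n i) f = 0 ↔
        ((dBG E (fun n => j n i) f : BG E) : AS E) = 0 := by
      constructor
      · intro h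
        rw [h]
        rfl
      · intro h
        exact Subtype.ext h
    rw [h3, h2]
    exact Filter.Germ.coe_eq (f := fun n => pderiv (j n i) (F n)) (g := fun _ => 0)
  have h2 : f ∈ PG E (fun i n => j n i) l ↔ ∀ i < l, dBG E (fun n => j n i) f = 0 := Iff.rfl
  rw [h2]
  have h3 : (∀ i < l, dBG E (fun n => j n i) f = 0) ↔
      ∀ i ∈ Finset.range l, ∀ᶠ n in (uf : Filter ℕ), pderiv (j n i) (F n) = 0 := by
    constructor
    · intro h i hi
      exact (h1 i).mp (h i (Finset.mem_range.mp hi))
    · intro h i hi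
      exact (h1 i).mpr (h i (Finset.mem_range.mpr hi))
  rw [h3, ← Filter.eventually_all_finset]
  refine Filter.eventually_congr (Filter.Eventually.of_forall fun n => ?_)
  rw [mem_Pj]
  constructor
  · intro h i hi
    exact h i (Finset.mem_range.mpr hi)
  · intro h i hi
    exact h i (Finset.mem_range.mp hi)

/-- every element of `BG` is the germ of a sequence -/
theorem exists_seq {E : Type} [Field E] (a : BG E) :
    ∃ F : ℕ → MvPolynomial ℕ E, (a : AS E) = gm E F := by
  obtain ⟨F, D, hF, h⟩ := a.2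
  exact ⟨F, h⟩

/-- row GGD -/
theorem ggd (gmm : GmmStmt) : GgdStmt := by
  intro E _ _ j l F G u q hu hq hgood
  obtain ⟨h1, a, ha, b, hb, h2, h3⟩ := hgood
  obtain ⟨A, hA⟩ := exists_seq a
  obtain ⟨B, hB⟩ := exists_seq b
  have e1 : ((a * q + b * u : BG E) : AS E) = gm E (fun n => A n * G n + B n * F n) := by
    show (a : AS E) * (q : AS E) + (b : AS E) * (u : AS E) = _
    rw [hA, hB, hq, hu]
    rfl
  have k1 := (gmm E j F u hu l).mp h1
  have k2 := (gmm E j A a hA l).mp ha
  have k3 := (gmm E j B b hB l).mp hb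
  have k4 := (gmm E j _ _ e1 (l + 1)).mp h2
  have k5 : ∀ᶠ n in (uf : Filter ℕ), A n * G n + B n * F n ≠ 0 := by
    have h4 : ¬ ∀ᶠ n in (uf : Filter ℕ), A n * G n + B n * F n = 0 := by
      intro h5
      apply h3
      apply Subtype.ext
      rw [e1]
      exact (Filter.Germ.coe_eq (f := fun n => A n * G n + B n * F n) (g := fun _ => 0)).mpr h5
    exact Ultrafilter.eventually_not.mpr h4
  filter_upwards [k1, k2, k3, k4, k5] with n c1 c2 c3 c4 c5
  exact ⟨c1, A n, c2, B n, c3, c4, c5⟩

end Pool.Agent.RS.H29
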